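import Pool.Agent.MP_0ea322_co.h46.Exact

/-!
# The fractional covering bound away from ties, in high dimension
-/

open Pool.Agent.MP_0ea322_co.h46

namespace Pool.Agent.Results.MP_0ea322_co.ExactRange

/-- Write `2 (k - 1) = (d + 1) L + c`. If the residue `c` is far enough from `0` and `d`, the
conjectured bound holds for every `n`. -/
theorem result (n d k L c : ℕ) (hk : 2 * k = (d + 1) * L + c + 2) (h3 : 3 ≤ c)
    (hc : c + 3 ≤ d) (hL : (d + 1) * (L * (L + 2)) ≤ (c - 3) * (d - 3 - c)) :
    fstar k d * n ≤ f n d k :=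
  exact_range n d k L c hk h3 hc hL

end Pool.Agent.Results.MP_0ea322_co.ExactRange
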