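import Pool.Agent.MP_0ea322_co.h46.Frac

/-!
# The fractional covering bound up to a factor that tends to one with the dimension
-/

open Pool.Agent.MP_0ea322_co.h46

namespace Pool.Agent.Results.MP_0ea322_co.HighDim

/-- In every dimension the conjectured bound holds up to a factor `1 + O(1 / √d)`, uniformly in
`n` and `k`; the factor is `1 + O(1 / d)` for `k = O(d)`. -/
theorem result (n d k : ℕ) (hd : 1 ≤ d) (hk : 1 ≤ k) :
    fstar k d * n ≤ (1 + 4 / d + min (4 * (k - 1) / d ^ 2 : ℝ) (3 / √d)) * f n d k :=
  final n d k hd hk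

end Pool.Agent.Results.MP_0ea322_co.HighDim
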