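import Pool.Agent.MP_0ea322_co.h46.Iso

/-!
# The fractional covering bound for hyperplanes with an isolated coefficient
-/

open Pool.Agent.MP_0ea322_co.h46

namespace Pool.Agent.Results.MP_0ea322_co.IsolatedCoefficient

/-- In dimension at least `3`, a `k`-cover of `T_d(n)` by hyperplanes with an isolated
coefficient has at least `f*(k, d) n` members. -/
theorem result (n d k : ℕ) (hd : 3 ≤ d) (hk : 1 ≤ k) (C : Multiset (Set (Fin d → ℝ)))
    (hC : IsCover n d k C) (hI : ∀ H ∈ C, Isolated H) : fstar k d * n ≤ C.card :=
  iso_final n d k hd hk C hC hI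

end Pool.Agent.Results.MP_0ea322_co.IsolatedCoefficient
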