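import Mathlib
import Pool.Agent.MP_0ea322_co.Cert

/-!
# The fractional covering bound for `k`-covers of the triangular grid in the plane
-/

namespace Pool.Agent.Results.MP_0ea322_co.PlaneCase

open Finset Pool.Agent.MP_0ea322_co

/-- An affine hyperplane of `ℝ^d`. -/
def IsHyperplane {d : ℕ} (H : Set (Fin d → ℝ)) : Prop :=
  ∃ (a : Fin d → ℝ) (c : ℝ), a ≠ 0 ∧ H = {x | ∑ i, a i * x i = c}

/-- The triangular grid `T_d(n)`. -/
def grid (d n : ℕ) : Set (Fin d → ℝ) :=
  {x | ∃ p : Fin d → ℕ, ∑ i, p i + 1 ≤ n ∧ x = fun i => (p i : ℝ)}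

open Classical in
/-- `C` is a `k`-cover of `T_d(n)`. -/
def IsCover (n d k : ℕ) (C : Multiset (Set (Fin d → ℝ))) : Prop :=
  (∀ H ∈ C, IsHyperplane H) ∧ ∀ x ∈ grid d n, k ≤ C.countP fun H => x ∈ H

/-- The least cardinality of a `k`-cover of `T_d(n)`. -/
noncomputable def f (n d k : ℕ) : ℕ := sInf {N | ∃ C, IsCover n d k C ∧ C.card = N}

open Classical in
/-- `w` is a fractional cover of `T_d(m)`. -/
def IsFracCover (m d : ℕ) (w : Set (Fin d → ℝ) →₀ ℝ) : Prop :=
  (∀ H, 0 ≤ w H) ∧ (∀ H ∈ w.support, IsHyperplane H) ∧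
    ∀ x ∈ grid d m, 1 ≤ ∑ H ∈ w.support with x ∈ H, w H

/-- The least total weight of a fractional cover of `T_d(m)`. -/
noncomputable def fstar (m d : ℕ) : ℝ :=
  sInf {t | ∃ w, IsFracCover m d w ∧ ∑ H ∈ w.support, w H = t}

/-- The lines parallel to the sides of `T_2(k)`. -/
def std (k : ℕ) (i : Fin 3) (s : ℕ) : Set (Fin 2 → ℝ) :=
  {x | ![x 0, x 1, k - 1 - x 0 - x 1] i = s}

lemma std_hyp (k : ℕ) (i : Fin 3) (s : ℕ) : IsHyperplane (std k i s) := by
  fin_cases i
  · exact ⟨![1, 0], s, by simp, by ext x; simp [std]⟩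
  · exact ⟨![0, 1], s, by simp, by ext x; simp [std]⟩
  · refine ⟨![1, 1], k - 1 - s, by simp, ?_⟩
    ext x
    simp [std]
    constructor <;> intro h <;> linarith

lemma mem_std {k : ℕ} {x : Fin 2 → ℝ} (hx : x ∈ grid 2 k) :
    ∃ q : Fin 3 → ℕ, q 0 + q 1 + q 2 + 1 = k ∧ ∀ i, x ∈ std k i (q i) := by
  obtain ⟨p, hp, rfl⟩ := hx
  rw [Fin.sum_univ_two] at hp
  obtain ⟨e, rfl⟩ := Nat.exists_eq_add_of_le hp
  refine ⟨![p 0, p 1, e], by simp; omega, fun i => ?_⟩
  fin_cases i <;> simp [std]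
  ring

lemma fstar_le {k A : ℕ} (h : k ≤ 3 * A) :
    fstar k 2 ≤ 3 * (A * (A + 1) / 2) / (3 * A + 1 - k) := by
  classical
  have hD : (0 : ℝ) < 3 * A + 1 - k := by
    have : (k : ℝ) ≤ 3 * A := by exact_mod_cast h
    linarith
  let c : ℕ → ℝ := fun s => (A - s : ℕ) / (3 * A + 1 - k)
  have hc : ∀ s, 0 ≤ c s := fun s => by positivity
  let w : Set (Fin 2 → ℝ) →₀ ℝ := ∑ i, ∑ s ∈ range A, Finsupp.single (std k i s) (c s)
  have hsum : ∀ P : Set (Fin 2 → ℝ) → Prop, ∑ H ∈ w.support with P H, w H =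
      ∑ i, ∑ s ∈ range A, if P (std k i s) then c s else 0 := by
    intro P
    rw [sum_filter]
    change w.sum (fun H t => if P H then t else 0) = _
    have h0 : ∀ H, (if P H then (0 : ℝ) else 0) = 0 := fun H => ite_self 0
    have h1 : ∀ H (a b : ℝ), (if P H then a + b else 0) =
        (if P H then a else 0) + if P H then b else 0 := fun H a b => by split_ifs <;> simp
    rw [← Finsupp.sum_finsetSum_index (h := fun H t => if P H then t else 0) h0 h1]
    refine sum_congr rfl fun i _ => ?_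
    rw [← Finsupp.sum_finsetSum_index (h := fun H t => if P H then t else 0) h0 h1]
    exact sum_congr rfl fun s _ => Finsupp.sum_single_index (h0 _)
  refine csInf_le ⟨0, ?_⟩ ⟨w, ⟨fun H => ?_, fun H hH => ?_, fun x hx => ?_⟩, ?_⟩
  · rintro t ⟨w, hw, rfl⟩
    exact sum_nonneg fun H _ => hw.1 H
  · simp only [w, Finsupp.finsetSum_apply]
    exact sum_nonneg fun i _ => sum_nonneg fun s _ => Finsupp.single_nonneg.2 (hc s) H
  · obtain ⟨i, _, hi⟩ := mem_biUnion.1 (Finsupp.support_finsetSum hH)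
    obtain ⟨s, _, hs⟩ := mem_biUnion.1 (Finsupp.support_finsetSum hi)
    rw [mem_singleton.1 (Finsupp.support_single_subset hs)]
    exact std_hyp k i s
  · obtain ⟨q, hq, hx⟩ := mem_std hx
    have h1 : ∀ i, ((A : ℝ) - q i) / (3 * A + 1 - k) ≤
        ∑ s ∈ range A, if x ∈ std k i s then c s else 0 := by
      intro i
      have h2 : ∀ s ∈ range A, 0 ≤ if x ∈ std k i s then c s else 0 := fun s _ => by
        split_ifs
        exacts [hc s, le_rfl]
      rcases lt_or_ge (q i) A with h3 | h3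
      · refine le_trans ?_ (single_le_sum h2 (mem_range.2 h3))
        simp [hx i, c, h3.le]
      · refine le_trans (div_nonpos_of_nonpos_of_nonneg ?_ hD.le) (sum_nonneg h2)
        exact sub_nonpos.2 (by exact_mod_cast h3)
    refine le_trans ?_ ((sum_le_sum fun i _ => h1 i).trans_eq (by convert (hsum (x ∈ ·)).symm))
    rw [← sum_div, le_div_iff₀ hD, Fin.sum_univ_three, ← hq]
    push_cast
    linarith
  · have h1 := hsum fun _ => True
    simp only [filter_true, if_true] at h1
    have h2 : ∀ B : ℕ, ∑ s ∈ range B, ((s + 1 : ℕ) : ℝ) = B * (B + 1) / 2 := by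
      intro B
      induction B with
      | zero => simp
      | succ B ih =>
        rw [sum_range_succ, ih]
        push_cast
        ring
    have h3 : ∑ s ∈ range A, ((A - s : ℕ) : ℝ) = A * (A + 1) / 2 := by
      rw [← h2, ← sum_range_reflect]
      refine sum_congr rfl fun s hs => ?_
      have := mem_range.1 hs
      congr 1
      omega
    rw [h1]
    simp only [c, ← sum_div, h3, sum_const, card_univ, Fintype.card_fin, nsmul_eq_mul]
    push_cast
    ring

lemma exists_cover (n k : ℕ) : ∃ C, IsCover n 2 k C := by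
  classical
  refine ⟨k • (range n).val.map (std n 0), fun H hH => ?_, fun x hx => ?_⟩
  · obtain ⟨s, _, rfl⟩ := Multiset.mem_map.1 (Multiset.mem_of_mem_nsmul hH)
    exact std_hyp _ _ _
  · obtain ⟨q, hq, hx⟩ := mem_std hx
    rw [Multiset.countP_nsmul]
    refine Nat.le_mul_of_pos_right _ (Multiset.countP_pos.2 ⟨_, ?_, hx 0⟩)
    exact Multiset.mem_map_of_mem _ (mem_range.2 (by omega))

/-- For all `n, k ≥ 1`, every `k`-cover of `T_2(n)` has at least `f*(k, 2) n` lines. -/
theorem result (n k : ℕ) (hn : 1 ≤ n) (hk : 1 ≤ k) : fstar k 2 * n ≤ f n 2 k := by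
  classical
  obtain ⟨A, G, hA, -, hG, h0, hmarg, hpath, hY⟩ := exists_profile hk
  obtain ⟨C, ⟨hC, hcov⟩, hcard⟩ : f n 2 k ∈ {N | ∃ C, IsCover n 2 k C ∧ C.card = N} :=
    Nat.sInf_mem (let ⟨C, h⟩ := exists_cover n k; ⟨_, C, h, rfl⟩)
  refine (mul_le_mul_of_nonneg_right (fstar_le hA) (Nat.cast_nonneg n)).trans ?_
  rw [← hY, ← hcard]
  let emb : (Fin 3 → ℕ) → Fin 2 → ℝ := fun p => ![p 0, p 1]
  let l : C.ToType → Set (Fin 3 → ℕ) := fun j => {p | p ∈ pts n ∧ emb p ∈ (j : Set (Fin 2 → ℝ))}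
  have hd : ∀ j : C.ToType, ∃ o : Option (Fin 3 × ℕ), (o = none → Skew (l j)) ∧
      ∀ i t, o = some (i, t) → t < n ∧ ∀ p ∈ l j, p i = t := by
    intro j
    obtain ⟨a, c, ha, hH⟩ := hC j Multiset.coe_mem
    have hl : l j = {p | p ∈ pts n ∧ a 0 * p 0 + a 1 * p 1 = c} := by
      ext p
      simp [l, hH, emb]
    have hab : a 0 ≠ 0 ∨ a 1 ≠ 0 := by
      by_contra h
      push Not at h
      exact ha (funext fun i => by fin_cases i <;> simp [h.1, h.2])
    rw [hl]
    rcases line_dichotomy (c := c) hn hab with ⟨i, t, ht, h⟩ | h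
    · refine ⟨some (i, t), by simp, fun i' t' he => ?_⟩
      obtain ⟨rfl, rfl⟩ := Prod.mk.inj (Option.some.inj he)
      exact ⟨ht, fun p hp => h p hp.1 hp.2⟩
    · exact ⟨none, fun _ => h, by simp⟩
  choose o ho1 ho2 using hd
  let m : Fin 3 → ℕ → ℕ := fun i t => (univ.filter fun j => o j = some (i, t)).card
  have main := count_main (n := n) (m := m) hG h0 hk hmarg hpath (univ.filter fun j => o j = none) l
    (fun j hj => ho1 j (mem_filter.1 hj).2) ?_
  · refine main.trans ?_
    have h1 : (univ : Finset C.ToType).card = ∑ y ∈ insertNone (univ ×ˢ range n),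
        (univ.filter fun j => o j = y).card := by
      refine card_eq_sum_card_fiberwise fun j _ => ?_
      simp only [mem_coe, mem_insertNone]
      rintro ⟨i, t⟩ h
      exact mem_product.2 ⟨mem_univ _, mem_range.2 (ho2 j i t h).1⟩
    rw [sum_insertNone, sum_product, card_univ, Multiset.card_coe] at h1
    rw [h1, add_comm]
    exact_mod_cast le_rfl
  · intro p hp
    have h1 := hcov (emb p) ⟨![p 0, p 1], by have := mem_pts.1 hp; simp; omega, by
      funext i
      fin_cases i <;> simp [emb]⟩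
    rw [← C.map_univ_coe, Multiset.countP_map] at h1
    have h2 : (univ.filter fun j : C.ToType => emb p ∈ (j : Set (Fin 2 → ℝ))) ⊆
        (univ.biUnion fun i => univ.filter fun j => o j = some (i, p i)) ∪
          (univ.filter fun j => o j = none).filter fun j => p ∈ l j := by
      intro j hj
      have hj' : p ∈ l j := ⟨hp, (mem_filter.1 hj).2⟩
      rcases h : o j with _ | ⟨i, t⟩
      · exact mem_union_right _ (mem_filter.2 ⟨mem_filter.2 ⟨mem_univ _, h⟩, hj'⟩)
      · refine mem_union_left _ (mem_biUnion.2 ⟨i, mem_univ _, mem_filter.2 ⟨mem_univ _, ?_⟩⟩)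
        rw [h, (ho2 j i t h).2 p hj']
    have h3 := (card_le_card h2).trans ((card_union_le _ _).trans
      (Nat.add_le_add_right card_biUnion_le _))
    rw [Fin.sum_univ_three] at h3
    have h4 : k ≤ (univ.filter fun j : C.ToType => emb p ∈ (j : Set (Fin 2 → ℝ))).card := by
      convert h1
      rfl
    unfold defi
    simp only [m]
    omega

end Pool.Agent.Results.MP_0ea322_co.PlaneCase
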